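import Mathlib
import Pool.Agent.HDI.PartT

/-!
# MP_be5eee_co: incidences with half-dimensional surfaces on all Cartesian products

The bound of Q1, without epsilon, for dense subsets of arbitrary Cartesian products (no
condition on the sizes of the factors) and surfaces which meet transversally at the points.
-/

namespace Pool.Agent.Results.MP_be5eee_co.AllProducts

open HDI

theorem result (e k C K : ℕ) (he : 1 ≤ e) (hk : 2 ≤ k) (hC : 1 ≤ C) (hK : 1 ≤ K) :
    ∃ A : ℝ, 0 < A ∧ ∀ (B : Fin (2 * e) → Finset ℝ) (P : Finset (Fin (2 * e) → ℝ))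
      (F : Finset (Set (Fin (2 * e) → ℝ))),
      Admissible e k C F → P ⊆ Fintype.piFinset B → (∏ i, (B i).card) ≤ K * P.card →
      Transversal C P F →
      (inc P F : ℝ) ≤ A * ((P.card : ℝ) ^ ((k : ℝ) / (2 * k - 1)) *
        (F.card : ℝ) ^ ((2 * k - 2 : ℝ) / (2 * k - 1)) + P.card + F.card) :=
  partT e k C K he hk hC hK

end Pool.Agent.Results.MP_be5eee_co.AllProducts
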