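import Pool.Agent.ROH.Main
import Pool.Agent.ROH.LMain
import Pool.Agent.ROH.SFin
import Pool.Agent.ROH.GelfF
import Pool.Agent.ROH.ZFin

/-!
Algebraic independence of `Γ(1/4)/√π` and `Γ(1/3)/√π`, and Rohrlich's question for the
denominator 12.
-/

namespace Pool.Agent.Results.MP_c2409d_nt.LevelTwelve

/-- the gamma product is an algebraic multiple of `π ^ (r / 2)` -/
def GammaMult {r : ℕ} (a : Fin r → ℚ) : Prop :=
  ∃ α : ℝ, IsAlgebraic ℚ α ∧ ∏ i, Real.Gamma ((a i : ℚ) : ℝ) = α * Real.pi ^ ((r : ℝ) / 2)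

/-- the fractional part identity for the common denominator `D` -/
def FracId (D : ℕ) {r : ℕ} (a : Fin r → ℚ) : Prop :=
  ∀ m : ℕ, 1 ≤ m → m ≤ D → Nat.Coprime m D → ∑ i, Int.fract ((m : ℚ) * a i) = (r : ℚ) / 2

/-- `D` is a common denominator of the `a i` -/
def ComDen (D : ℕ) {r : ℕ} (a : Fin r → ℚ) : Prop := 0 < D ∧ ∀ i, ∃ z : ℤ, (D : ℚ) * a i = z

/-- the number of integers among the `a i` -/
def numInt {r : ℕ} (a : Fin r → ℚ) : ℕ :=
  (Finset.univ.filter fun i => Int.fract (a i) = 0).card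

theorem result :
    AlgebraicIndependent ℚ
      ![Real.Gamma (1 / 4) / Real.sqrt Real.pi, Real.Gamma (1 / 3) / Real.sqrt Real.pi] ∧
    (∀ (r : ℕ) (a : Fin r → ℚ), (∀ i, ∃ z : ℤ, 12 * a i = z) → (∀ (i : Fin r) (z : ℤ), a i ≠ z) →
      ∀ D : ℕ, ComDen D a → (GammaMult a ↔ FracId D a)) ∧
    ∃ u v : ℚ, u ≠ v ∧ u ≠ -v ∧ ∀ (r : ℕ) (a : Fin r → ℚ),
      (∀ (i : Fin r) (n : ℕ), a i ≠ -(n : ℚ)) → (∀ i, ∃ z : ℤ, 12 * a i = z) →
      ∀ D : ℕ, ComDen D a → ¬ (GammaMult a ↔ FracId D a) →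
        0 < numInt a ∧ ∑ i, Int.fract (a i) = ((r : ℚ) - numInt a) / 2 + u * numInt a ∧
          ∑ i, Int.fract (5 * a i) = ((r : ℚ) - numInt a) / 2 + v * numInt a := by
  have hind := ROH.algInd_main (ROH.mainV ROH.gelfondForm) ROH.sigmaI ROH.sigmaR
    ROH.latticeI ROH.latticeR
  obtain ⟨h1, u, v, huv, huv', h2⟩ := ROH.final12 hind
  exact ⟨hind, fun r a h12 hni D hD => h1 r a h12 hni D hD.1 hD.2,
    u, v, huv, huv', fun r a hnp h12 D hD hne => h2 r a hnp h12 D hD.1 hD.2 hne⟩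

end Pool.Agent.Results.MP_c2409d_nt.LevelTwelve
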